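import Pool.Agent.Helper67.LM.Defs

/-!
# Local minimality of the simplex (MP_6fb600_gt): the volume of a thin region at a facet (RV0)
-/

open MeasureTheory Set
open scoped ENNReal
open Pool.Agent.Helper47.AQ Pool.Agent.Helper67.LM

noncomputable section

namespace Pool.Agent.Helper93.LM

variable {ι : Type} [Fintype ι]

/-- the closed orthant -/
def CC (ι : Type) : Set (ι → ℝ) := {x | ∀ i, 0 ≤ x i}

theorem measurableSet_CC : MeasurableSet (CC ι) := by
  have : CC ι = ⋂ i, {x : ι → ℝ | 0 ≤ x i} := by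
    ext x; simp [CC]
  rw [this]
  exact MeasurableSet.iInter fun i => measurableSet_le measurable_const (measurable_pi_apply i)

/-- `exp (-∑ x_i)` -/
def ee (x : ι → ℝ) : ℝ≥0∞ := ENNReal.ofReal (Real.exp (-∑ i, x i))

theorem measurable_ee : Measurable (ee : (ι → ℝ) → ℝ≥0∞) := by
  unfold ee
  fun_prop

theorem lint_exp_mul {s : ℝ} (hs : 0 < s) :
    ∫⁻ t in Ioi (0 : ℝ), ENNReal.ofReal (Real.exp (-(t * s))) = ENNReal.ofReal (1 / s) := by
  have h1 : IntegrableOn (fun t : ℝ => Real.exp (-(t * s))) (Ioi 0) := by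
    have := exp_neg_integrableOn_Ioi 0 hs
    refine this.congr_fun (fun t _ => ?_) measurableSet_Ioi
    beta_reduce
    congr 1
    ring
  rw [← ofReal_integral_eq_lintegral_ofReal h1 (Filter.Eventually.of_forall fun t => (Real.exp_pos _).le)]
  congr 1
  have h2 := integral_exp_mul_Ioi (a := -s) (by linarith) 0
  rw [mul_zero, Real.exp_zero] at h2
  rw [show (1 : ℝ) / s = -1 / -s by rw [neg_div_neg_eq], ← h2]
  refine setIntegral_congr_fun measurableSet_Ioi fun t _ => ?_
  congr 1
  ring

/-- translations of the orthant -/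
theorem lint_shift (v : ι → ℝ) (t : ℝ) :
    ∫⁻ x, (CC ι).indicator (fun _ => (1 : ℝ≥0∞)) (x - t • v) * ee x =
      ENNReal.ofReal (Real.exp (-(t * ∑ i, v i))) * ∫⁻ x in CC ι, ee x := by
  rw [← lintegral_add_right_eq_self (μ := (volume : Measure (ι → ℝ)))
    (fun x => (CC ι).indicator (fun _ => (1 : ℝ≥0∞)) (x - t • v) * ee x) (t • v),
    ← lintegral_indicator measurableSet_CC, ← lintegral_const_mul _
      (measurable_ee.indicator measurableSet_CC)]
  refine lintegral_congr fun x => ?_
  rw [add_sub_cancel_right]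
  by_cases hx : x ∈ CC ι
  · rw [indicator_of_mem hx, indicator_of_mem hx, one_mul]
    unfold ee
    rw [← ENNReal.ofReal_mul (Real.exp_pos _).le, ← Real.exp_add]
    congr 2
    simp only [Pi.add_apply, Pi.smul_apply, smul_eq_mul, Finset.sum_add_distrib, Finset.mul_sum]
    ring
  · rw [indicator_of_notMem hx, indicator_of_notMem hx, zero_mul, mul_zero]

theorem lint_phi (v : ι → ℝ) {s : ℝ} (hs : 0 < s) (hv : ∑ i, v i = s) (φ : (ι → ℝ) → ℝ)
    (hm : Measurable φ)
    (hφ : ∀ x : ι → ℝ, ∀ t : ℝ, 0 < t → ((x ∈ CC ι ∧ t ≤ φ x) ↔ x - t • v ∈ CC ι)) :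
    ∫⁻ x in CC ι, ee x * ENNReal.ofReal (φ x) =
      ENNReal.ofReal (1 / s) * ∫⁻ x in CC ι, ee x := by
  have h1 : ∀ x : ι → ℝ, ENNReal.ofReal (φ x) =
      ∫⁻ t in Ioi (0 : ℝ), (Iic (φ x)).indicator (fun _ => (1 : ℝ≥0∞)) t := by
    intro x
    rw [lintegral_indicator measurableSet_Iic, Measure.restrict_restrict measurableSet_Iic,
      lintegral_const, Measure.restrict_apply MeasurableSet.univ, univ_inter, one_mul,
      inter_comm, Ioi_inter_Iic, Real.volume_Ioc, sub_zero]
  have hms : MeasurableSet {z : (ι → ℝ) × ℝ | z.2 ≤ φ z.1} :=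
    measurableSet_le measurable_snd (hm.comp measurable_fst)
  have h2 : ∫⁻ x in CC ι, ee x * ENNReal.ofReal (φ x) =
      ∫⁻ x in CC ι, ∫⁻ t in Ioi (0 : ℝ), ee x * (Iic (φ x)).indicator (fun _ => (1 : ℝ≥0∞)) t := by
    refine lintegral_congr fun x => ?_
    rw [h1 x, lintegral_const_mul]
    exact measurable_const.indicator measurableSet_Iic
  rw [h2, lintegral_lintegral_swap]
  · have h3 : ∀ t ∈ Ioi (0 : ℝ), ∫⁻ x in CC ι, ee x * (Iic (φ x)).indicator (fun _ => (1 : ℝ≥0∞)) t =
        ENNReal.ofReal (Real.exp (-(t * s))) * ∫⁻ x in CC ι, ee x := by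
      intro t ht
      rw [← hv, ← lint_shift v t, ← lintegral_indicator measurableSet_CC]
      refine lintegral_congr fun x => ?_
      by_cases hx : x ∈ CC ι ∧ t ≤ φ x
      · rw [indicator_of_mem hx.1, indicator_of_mem (s := Iic (φ x)) hx.2,
          indicator_of_mem ((hφ x t ht).1 hx), one_mul, mul_one]
      · have h4 : ¬ (x - t • v ∈ CC ι) := fun h => hx ((hφ x t ht).2 h)
        rw [indicator_of_notMem h4, zero_mul]
        by_cases hx1 : x ∈ CC ι
        · have h5 : ¬ t ∈ Iic (φ x) := fun h => hx ⟨hx1, h⟩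
          rw [indicator_of_mem hx1, indicator_of_notMem h5, mul_zero]
        · rw [indicator_of_notMem hx1]
    rw [setLIntegral_congr_fun measurableSet_Ioi h3, lintegral_mul_const, lint_exp_mul hs]
    fun_prop
  · have h4 : (Function.uncurry fun (x : ι → ℝ) (t : ℝ) =>
        ee x * (Iic (φ x)).indicator (fun _ => (1 : ℝ≥0∞)) t) =
        fun z : (ι → ℝ) × ℝ => ee z.1 * {z : (ι → ℝ) × ℝ | z.2 ≤ φ z.1}.indicator
          (fun _ => (1 : ℝ≥0∞)) z := by
      funext z
      simp only [Function.uncurry]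
      by_cases hz : z.2 ≤ φ z.1
      · rw [indicator_of_mem (s := Iic (φ z.1)) hz,
          indicator_of_mem (s := {z : (ι → ℝ) × ℝ | z.2 ≤ φ z.1}) hz]
      · rw [indicator_of_notMem (s := Iic (φ z.1)) hz,
          indicator_of_notMem (s := {z : (ι → ℝ) × ℝ | z.2 ≤ φ z.1}) hz]
    rw [h4]
    exact ((measurable_ee.comp measurable_fst).mul (measurable_const.indicator hms)).aemeasurable

omit [Fintype ι] in
theorem CC_smul (t : ℝ) (ht : 0 < t) (x : ι → ℝ) : t • x ∈ CC ι ↔ x ∈ CC ι := by
  simp [CC, ht]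

theorem T_lt_top : volume (T ι) ≠ ∞ := by
  have h : T ι ⊆ Set.pi univ (fun _ : ι => Icc (0 : ℝ) 1) := by
    intro x hx i _
    refine ⟨hx.1 i, ?_⟩
    have h1 : x i ≤ ∑ j, x j := Finset.single_le_sum (fun j _ => hx.1 j) (Finset.mem_univ i)
    exact h1.trans hx.2
  exact ((measure_mono h).trans_lt (isCompact_univ_pi fun _ => isCompact_Icc).measure_lt_top).ne

theorem measurable_inf [Nonempty ι] : Measurable fun x : ι → ℝ => ⨅ j, x j :=
  Measurable.iInf fun j => measurable_pi_apply j

/-- the perturbation -/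
def DD (d : ι → ℝ) (x : ι → ℝ) : ℝ := ∑ i, d i * (x i - ⨅ j, x j)

theorem measurable_DD [Nonempty ι] (d : ι → ℝ) : Measurable (DD d) := by
  unfold DD
  exact Finset.measurable_sum _ fun i _ =>
    measurable_const.mul ((measurable_pi_apply i).sub measurable_inf)

omit [Fintype ι] in
theorem inf_smul (t : ℝ) (ht : 0 < t) (x : ι → ℝ) : ⨅ j, (t • x) j = t * ⨅ j, x j := by
  rw [Real.mul_iInf_of_nonneg ht.le]
  rfl

theorem DD_smul (d : ι → ℝ) (t : ℝ) (ht : 0 < t) (x : ι → ℝ) : DD d (t • x) = t * DD d x := by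
  unfold DD
  rw [inf_smul t ht, Finset.mul_sum]
  refine Finset.sum_congr rfl fun i _ => ?_
  rw [Pi.smul_apply, smul_eq_mul]
  ring

theorem inf_le' (x : ι → ℝ) (i : ι) : ⨅ j, x j ≤ x i :=
  ciInf_le (Set.finite_range _).bddBelow i

theorem DD_nonneg (d : ι → ℝ) (hd : ∀ i, 0 ≤ d i) (x : ι → ℝ) : 0 ≤ DD d x :=
  Finset.sum_nonneg fun i _ => mul_nonneg (hd i) (sub_nonneg.2 (inf_le' x i))

theorem lint_coord (i : ι) [DecidableEq ι] :
    ∫⁻ x in CC ι, ee x * ENNReal.ofReal (x i) = ∫⁻ x in CC ι, ee x := by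
  have h := lint_phi (ι := ι) (Pi.single i 1) one_pos (by simp) (fun x => x i)
    (measurable_pi_apply i) (by
      intro x t ht
      constructor
      · rintro ⟨h1, h2⟩ j
        by_cases hj : j = i
        · subst hj
          simp only [Pi.sub_apply, Pi.smul_apply, Pi.single_eq_same, smul_eq_mul, mul_one]
          linarith
        · simp only [Pi.sub_apply, Pi.smul_apply, Pi.single_eq_of_ne hj, smul_eq_mul, mul_zero, sub_zero]
          exact h1 j
      · intro h1
        have h2 := h1 i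
        simp only [Pi.sub_apply, Pi.smul_apply, Pi.single_eq_same, smul_eq_mul, mul_one] at h2
        refine ⟨fun j => ?_, by linarith⟩
        by_cases hj : j = i
        · subst hj; linarith
        · have h3 := h1 j
          simpa only [Pi.sub_apply, Pi.smul_apply, Pi.single_eq_of_ne hj, smul_eq_mul, mul_zero,
            sub_zero] using h3)
  rw [h]
  simp

theorem lint_inf [Nonempty ι] :
    ∫⁻ x in CC ι, ee x * ENNReal.ofReal (⨅ j, x j) =
      ENNReal.ofReal (1 / (Fintype.card ι : ℝ)) * ∫⁻ x in CC ι, ee x := by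
  refine lint_phi (ι := ι) (fun _ => 1) (by exact_mod_cast Fintype.card_pos) (by simp)
    (fun x => ⨅ j, x j) measurable_inf ?_
  intro x t ht
  rw [le_ciInf_iff (Set.finite_range _).bddBelow]
  constructor
  · rintro ⟨_, h2⟩ j
    have := h2 j
    simp only [Pi.sub_apply, Pi.smul_apply, smul_eq_mul, mul_one]
    linarith
  · intro h1
    have h2 : ∀ j, t ≤ x j := by
      intro j
      have h3 := h1 j
      simp only [Pi.sub_apply, Pi.smul_apply, smul_eq_mul, mul_one] at h3
      linarith
    exact ⟨fun j => by linarith [h2 j], h2⟩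

theorem rv0 {ι : Type} [Fintype ι] [DecidableEq ι] [Nonempty ι] (d : ι → ℝ) (hd : ∀ i, 0 ≤ d i) :
    volume (RR d) ≤ ENNReal.ofReal ((1 - 1 / (Fintype.card ι : ℝ)) * ∑ i, d i) * volume (T ι) := by
  set n : ℝ := (Fintype.card ι : ℝ) with hn
  have hn0 : 0 < n := by rw [hn]; exact_mod_cast Fintype.card_pos
  have hn1 : 1 ≤ n := by rw [hn]; exact_mod_cast Fintype.card_pos
  set I : ℝ≥0∞ := ∫⁻ x in CC ι, ee x with hI
  set s : ℝ := ∑ i, d i with hs
  have hs0 : 0 ≤ s := Finset.sum_nonneg fun i _ => hd i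
  have hfac : ((Fintype.card ι).factorial : ℝ≥0∞) ≠ 0 := by
    exact_mod_cast (Nat.factorial_pos _).ne'
  have hfac' : ((Fintype.card ι).factorial : ℝ≥0∞) ≠ ∞ := ENNReal.natCast_ne_top _
  -- the two volumes
  have hIT : I = ((Fintype.card ι).factorial : ℝ≥0∞) * volume (T ι) := by
    have h1 := laplace (CC ι) CC_smul (fun x => max (∑ i, x i) 0)
      (by fun_prop) (fun t ht x => by
        simp only [Pi.smul_apply, smul_eq_mul]
        rw [← Finset.mul_sum, mul_max_of_nonneg _ _ ht.le, mul_zero]) (fun x => le_max_right _ _)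
    have h2 : CC ι ∩ {x | max (∑ i, x i) 0 ≤ 1} = T ι := by
      ext x
      simp [CC, T]
    rw [h2] at h1
    rw [← h1, hI]
    refine setLIntegral_congr_fun measurableSet_CC fun x hx => ?_
    unfold ee
    rw [max_eq_left (Finset.sum_nonneg fun i _ => hx i)]
  set N : (ι → ℝ) → ℝ := fun x => max (∑ i, x i + DD d x) 0 with hN
  have hNm : Measurable N := by
    refine (Measurable.add ?_ (measurable_DD d)).max measurable_const
    fun_prop
  set J : ℝ≥0∞ := ∫⁻ x in CC ι, ENNReal.ofReal (Real.exp (-(N x))) with hJ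
  have hJN : J = ((Fintype.card ι).factorial : ℝ≥0∞) * volume (CC ι ∩ {x | N x ≤ 1}) := by
    refine laplace (CC ι) CC_smul N hNm (fun t ht x => ?_) (fun x => le_max_right _ _)
    simp only [hN]
    rw [DD_smul d t ht x, mul_max_of_nonneg _ _ ht.le, mul_zero]
    simp only [Pi.smul_apply, smul_eq_mul]
    rw [← Finset.mul_sum, mul_add]
  have hms : MeasurableSet (CC ι ∩ {x | N x ≤ 1}) :=
    measurableSet_CC.inter (measurableSet_le hNm measurable_const)
  have hTsplit : volume (RR d) + volume (CC ι ∩ {x | N x ≤ 1}) = volume (T ι) := by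
    rw [← measure_union _ hms]
    · congr 1
      ext x
      constructor
      · rintro (hx | hx)
        · exact hx.1
        · refine ⟨hx.1, ?_⟩
          have h1 : N x ≤ 1 := hx.2
          have h2 : ∑ i, x i + DD d x ≤ 1 := (le_max_left _ _).trans h1
          linarith [DD_nonneg d hd x]
      · intro hx
        by_cases h1 : N x ≤ 1
        · exact Or.inr ⟨hx.1, h1⟩
        · left
          refine ⟨hx, ?_⟩
          have h2 : 1 < N x := not_le.1 h1
          have h3 : 1 < ∑ i, x i + DD d x := by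
            rcases lt_max_iff.1 h2 with h | h
            · exact h
            · linarith
          have h4 : DD d x = ∑ i, d i * (x i - ⨅ j, x j) := rfl
          rw [← h4]
          linarith
    · rw [Set.disjoint_left]
      rintro x hx hx2
      have h1 : N x ≤ 1 := hx2.2
      have h2 : ∑ i, x i + DD d x ≤ 1 := (le_max_left _ _).trans h1
      have h3 : 1 - ∑ i, x i < DD d x := hx.2
      linarith
  -- the main inequality
  have hmain : I + ENNReal.ofReal (s * (1 / n)) * I ≤ J + ENNReal.ofReal s * I := by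
    have h1 : ENNReal.ofReal (s * (1 / n)) * I =
        ∫⁻ x in CC ι, ENNReal.ofReal s * (ee x * ENNReal.ofReal (⨅ j, x j)) := by
      have hm1 : Measurable fun x : ι → ℝ => ee x * ENNReal.ofReal (⨅ j, x j) :=
        measurable_ee.mul measurable_inf.ennreal_ofReal
      rw [lintegral_const_mul _ hm1, lint_inf, ENNReal.ofReal_mul hs0, mul_assoc]
    have h2 : ENNReal.ofReal s * I =
        ∫⁻ x in CC ι, ∑ i, ENNReal.ofReal (d i) * (ee x * ENNReal.ofReal (x i)) := by
      rw [lintegral_finsetSum]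
      · rw [hs, ENNReal.ofReal_sum_of_nonneg fun i _ => hd i, Finset.sum_mul]
        refine Finset.sum_congr rfl fun i _ => ?_
        rw [lintegral_const_mul, lint_coord]
        exact measurable_ee.mul (measurable_pi_apply i).ennreal_ofReal
      · intro i _
        exact measurable_const.mul (measurable_ee.mul (measurable_pi_apply i).ennreal_ofReal)
    rw [h1, h2, hI, hJ, ← lintegral_add_left measurable_ee, ← lintegral_add_left]
    · refine setLIntegral_mono' measurableSet_CC fun x hx => ?_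
      have hx0 : ∀ i, 0 ≤ x i := hx
      have hinf : 0 ≤ ⨅ j, x j := le_ciInf hx0
      have hsum : 0 ≤ ∑ i, x i := Finset.sum_nonneg fun i _ => hx0 i
      have hNx : N x = ∑ i, x i + DD d x := max_eq_left (add_nonneg hsum (DD_nonneg d hd x))
      unfold ee
      have e0 : (0 : ℝ) ≤ Real.exp (-∑ i, x i) := (Real.exp_pos _).le
      have e1 : ∀ i ∈ Finset.univ, ENNReal.ofReal (d i) * (ENNReal.ofReal (Real.exp (-∑ i, x i)) *
          ENNReal.ofReal (x i)) = ENNReal.ofReal (d i * (Real.exp (-∑ i, x i) * x i)) := by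
        intro i _
        rw [← ENNReal.ofReal_mul e0, ← ENNReal.ofReal_mul (hd i)]
      rw [Finset.sum_congr rfl e1, ← ENNReal.ofReal_sum_of_nonneg
        (fun i _ => mul_nonneg (hd i) (mul_nonneg e0 (hx0 i))), ← ENNReal.ofReal_mul e0,
        ← ENNReal.ofReal_mul hs0, ← ENNReal.ofReal_add e0 (mul_nonneg hs0 (mul_nonneg e0 hinf)),
        ← ENNReal.ofReal_add (Real.exp_pos _).le
          (Finset.sum_nonneg fun i _ => mul_nonneg (hd i) (mul_nonneg e0 (hx0 i)))]
      apply ENNReal.ofReal_le_ofReal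
      rw [hNx, neg_add, Real.exp_add]
      have h3 : ∑ i, d i * (Real.exp (-∑ i, x i) * x i) =
          Real.exp (-∑ i, x i) * (DD d x + s * ⨅ j, x j) := by
        unfold DD
        rw [hs, Finset.sum_mul, ← Finset.sum_add_distrib, Finset.mul_sum]
        refine Finset.sum_congr rfl fun i _ => ?_
        ring
      rw [h3]
      have h4 := Real.add_one_le_exp (-(DD d x))
      nlinarith
    · exact hNm.neg.exp.ennreal_ofReal
  -- conclusion
  have hTtop := T_lt_top (ι := ι)
  have hRtop : volume (RR d) ≠ ∞ := fun h => by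
    rw [h, top_add] at hTsplit
    exact hTtop hTsplit.symm
  have hNtop : volume (CC ι ∩ {x | N x ≤ 1}) ≠ ∞ := fun h => by
    rw [h, add_top] at hTsplit
    exact hTtop hTsplit.symm
  rw [hJN, hIT, ← hTsplit] at hmain
  have hreal : (((Fintype.card ι).factorial : ℝ≥0∞) * (volume (RR d) + volume (CC ι ∩ {x | N x ≤ 1})) +
      ENNReal.ofReal (s * (1 / n)) * (((Fintype.card ι).factorial : ℝ≥0∞) *
        (volume (RR d) + volume (CC ι ∩ {x | N x ≤ 1})))).toReal ≤
      (((Fintype.card ι).factorial : ℝ≥0∞) * volume (CC ι ∩ {x | N x ≤ 1}) +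
      ENNReal.ofReal s * (((Fintype.card ι).factorial : ℝ≥0∞) *
        (volume (RR d) + volume (CC ι ∩ {x | N x ≤ 1})))).toReal := by
    refine ENNReal.toReal_mono ?_ hmain
    finiteness
  rw [ENNReal.toReal_add (by finiteness) (by finiteness), ENNReal.toReal_mul, ENNReal.toReal_mul,
    ENNReal.toReal_mul, ENNReal.toReal_add (by finiteness) (by finiteness),
    ENNReal.toReal_add (by finiteness) (by finiteness), ENNReal.toReal_mul, ENNReal.toReal_mul,
    ENNReal.toReal_mul, ENNReal.toReal_add (by finiteness) (by finiteness),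
    ENNReal.toReal_ofReal (by positivity), ENNReal.toReal_ofReal hs0, ENNReal.toReal_natCast] at hreal
  set r := (volume (RR d)).toReal
  set w := (volume (CC ι ∩ {x | N x ≤ 1})).toReal
  have hf : (0 : ℝ) < ((Fintype.card ι).factorial : ℝ) := by exact_mod_cast Nat.factorial_pos _
  have hfin : r ≤ (1 - 1 / n) * s * (r + w) := by
    have h1 : ((Fintype.card ι).factorial : ℝ) * (r + s * (1 / n) * (r + w)) ≤
        ((Fintype.card ι).factorial : ℝ) * (s * (r + w)) := by linarith
    have h2 := le_of_mul_le_mul_left h1 hf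
    linarith
  rw [← hTsplit, ← ENNReal.ofReal_toReal hRtop, ← ENNReal.ofReal_toReal hNtop,
    ← ENNReal.ofReal_add ENNReal.toReal_nonneg ENNReal.toReal_nonneg, ← ENNReal.ofReal_mul]
  · exact ENNReal.ofReal_le_ofReal hfin
  · have : 0 ≤ 1 - 1 / n := by
      rw [sub_nonneg, div_le_one hn0]; exact hn1
    positivity

end Pool.Agent.Helper93.LM
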